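import Mathlib

/-!
# The Game of Cycles on the cube minus a vertex

The board is the cube minus a vertex: three 4-cycles around a vertex, with 7 vertices and 9 edges.
It has an odd number of edges and no triangle, and the second player wins.
-/

set_option autoImplicit false

namespace Pool.Agent.Results.MP_b0ae03_co.CubeMinusVertex

/-- A drawing of a graph in the plane, given by its darts (directed edges): `rev` gives the
opposite dart of the same edge, `rot` gives the next dart with the same tail in the cyclic order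
around this tail, and `outer` is a dart on the boundary of the unbounded region. -/
structure Board (D : Type) where
  rev : D → D
  rev_rev : ∀ d, rev (rev d) = d
  rev_ne : ∀ d, rev d ≠ d
  rot : Equiv.Perm D
  outer : D

variable {D : Type}

/-- `rev` as a permutation. Its cycles are the edges; the cycles of `rot` are the vertices. -/
def Board.revPerm (B : Board D) : Equiv.Perm D := ⟨B.rev, B.rev, B.rev_rev, B.rev_rev⟩

/-- The next dart on the boundary of the region beside a dart. The cycles of this permutation are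
the regions of the drawing. -/
def Board.next (B : Board D) : Equiv.Perm D := B.revPerm.trans B.rot

/-- The number of cycles of a permutation (fixed points count as cycles). -/
noncomputable def numCycles (σ : Equiv.Perm D) : ℕ :=
  Nat.card (Quotient (Equiv.Perm.SameCycle.setoid σ))

/-- The graph is connected: a nonempty set of darts that is closed under `rev` and `rot` contains
all darts. -/
def Board.Connected (B : Board D) : Prop :=
  ∀ A : Set D, A.Nonempty → (∀ d ∈ A, B.rev d ∈ A ∧ B.rot d ∈ A) → A = Set.univ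

/-- The drawing is a drawing in the plane (Euler's formula). -/
def Board.Planar (B : Board D) : Prop :=
  numCycles B.rot + numCycles B.next = numCycles B.revPerm + 2

/-- The graph is simple: it has no loops and no multiple edges. -/
def Board.Simple (B : Board D) : Prop :=
  (∀ d, ¬ B.rot.SameCycle d (B.rev d)) ∧
  ∀ d e, B.rot.SameCycle d e → B.rot.SameCycle (B.rev d) (B.rev e) → d = e

/-- There is no 3-cycle. -/
def Board.TriangleFree (B : Board D) : Prop :=
  ∀ a b c, ¬ (B.rot.SameCycle (B.rev a) b ∧ B.rot.SameCycle (B.rev b) c ∧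
    B.rot.SameCycle (B.rev c) a)

/-- A position is the set `M` of chosen darts. Some vertex is a source. -/
def Board.Source (B : Board D) (M : Set D) : Prop :=
  ∃ d, ∀ e, B.rot.SameCycle d e → e ∈ M

/-- Some vertex is a sink. -/
def Board.Sink (B : Board D) (M : Set D) : Prop :=
  ∃ d, ∀ e, B.rot.SameCycle d e → B.rev e ∈ M

/-- The boundary of some bounded region is marked consistently in one of the two directions. -/
def Board.CycleCell (B : Board D) (M : Set D) : Prop :=
  ∃ d, ¬ B.next.SameCycle B.outer d ∧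
    ((∀ e, B.next.SameCycle d e → e ∈ M) ∨ ∀ e, B.next.SameCycle d e → B.rev e ∈ M)

/-- It is legal to choose the dart `d`: its edge is unmarked and no sink or source arises. -/
def Board.Legal (B : Board D) (M : Set D) (d : D) : Prop :=
  d ∉ M ∧ B.rev d ∉ M ∧ ¬ B.Source (insert d M) ∧ ¬ B.Sink (insert d M)

/-- The player who is to move in the position `M` has a winning strategy: this player can create a
cycle cell, or there is a legal move after which every legal answer of the opponent creates no cycle
cell and leads to a position in which this player has a winning strategy again. (If the opponent has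
no legal answer, the player has made the last move.) -/
inductive Board.Wins (B : Board D) : Set D → Prop
  | cycle (M : Set D) (d : D) : B.Legal M d → B.CycleCell (insert d M) → B.Wins M
  | force (M : Set D) (d : D) : B.Legal M d →
      (∀ e, B.Legal (insert d M) e → ¬ B.CycleCell (insert e (insert d M))) →
      (∀ e, B.Legal (insert d M) e → B.Wins (insert e (insert d M))) → B.Wins M

/-- The first player has a winning strategy. -/
def Board.FirstWins (B : Board D) : Prop := B.Wins ∅

/-- The player who is not to move in the position `M` has a winning strategy. -/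
def Board.Loses (B : Board D) (M : Set D) : Prop :=
  ∀ d, B.Legal M d → ¬ B.CycleCell (insert d M) ∧ B.Wins (insert d M)

/-- The second player has a winning strategy. -/
def Board.SecondWins (B : Board D) : Prop := B.Loses ∅

theorem not_wins [Fintype D] (B : Board D) : ∀ (n : ℕ) (M : Set D), (Mᶜ).ncard ≤ n →
    B.Loses M → ¬ B.Wins M := by
  intro n
  induction n with
  | zero =>
    intro M hn _ hW
    have h0 : Mᶜ = ∅ := by
      rw [← Set.ncard_eq_zero (Set.toFinite _)]
      omega
    have hall : ∀ d, d ∈ M := by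
      intro d
      by_contra h
      have : d ∈ Mᶜ := h
      rw [h0] at this
      exact this
    cases hW with
    | cycle _ d h1 h2 => exact h1.1 (hall d)
    | force _ d h1 h2 h3 => exact h1.1 (hall d)
  | succ n ih =>
    intro M hn hL hW
    cases hW with
    | cycle _ d h1 h2 => exact (hL d h1).1 h2
    | force _ d h1 h2 h3 =>
      refine ih (insert d M) ?_ (fun e he => ⟨h2 e he, h3 e he⟩) (hL d h1).2
      have hlt : ((insert d M)ᶜ).ncard < (Mᶜ).ncard := by
        apply Set.ncard_lt_ncard _ (Set.toFinite _)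
        refine ⟨fun x hx h => hx (Set.mem_insert_of_mem _ h), fun hsub => ?_⟩
        exact hsub h1.1 (Set.mem_insert d M)
      omega

/-! ## The board -/

/-- the opposite darts -/
def rv : Fin 18 → Fin 18 := ![1, 0, 3, 2, 5, 4, 7, 6, 9, 8, 11, 10, 13, 12, 15, 14, 17, 16]

/-- the rotation -/
def rt : Fin 18 → Fin 18 := ![7, 13, 1, 4, 3, 14, 5, 8, 0, 17, 9, 12, 11, 2, 6, 16, 15, 10]

/-- its inverse -/
def ri : Fin 18 → Fin 18 := ![8, 2, 13, 4, 3, 6, 14, 0, 7, 10, 17, 12, 11, 1, 5, 16, 15, 9]

/-- the tails of the darts -/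
def vl : Fin 18 → Fin 7 := ![0, 1, 1, 2, 2, 3, 3, 0, 0, 4, 4, 5, 5, 1, 3, 6, 6, 4]

/-- the regions beside the darts -/
def fl : Fin 18 → Fin 4 := ![0, 1, 3, 1, 3, 1, 2, 1, 2, 0, 3, 0, 3, 0, 3, 2, 3, 2]

/-- The cube minus a vertex. The vertices are `0, ..., 6` and the darts `2i` and `2i + 1` are the
two directions of the edges `01, 12, 23, 30, 04, 45, 51, 36, 64` (in this order, `i = 0, ..., 8`);
the unbounded region is bounded by the 6-cycle `1 2 3 6 4 5`. -/
def board : Board (Fin 18) where
  rev := rv
  rev_rev := by decide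
  rev_ne := by decide
  rot := ⟨rt, ri, by decide, by decide⟩
  outer := 2

theorem rot_apply (d : Fin 18) : board.rot d = rt d := rfl

theorem next_apply (d : Fin 18) : board.next d = rt (rv d) := rfl

/-- The cycles of a permutation in terms of labels. -/
theorem same_iff {n : ℕ} (σ : Equiv.Perm (Fin 18)) (l : Fin 18 → Fin n)
    (h1 : ∀ d, l (σ d) = l d) (h2 : ∀ d e, l d = l e → ∃ k : Fin 6, (σ ^ (k : ℕ)) d = e)
    (d e : Fin 18) : σ.SameCycle d e ↔ l d = l e := by
  constructor
  · rintro ⟨k, rfl⟩
    have hz : ∀ k : ℤ, ∀ d, l ((σ ^ k) d) = l d := by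
      intro k
      induction k using Int.induction_on with
      | zero => intro d; simp
      | succ k ih =>
        intro d
        rw [zpow_add_one, Equiv.Perm.mul_apply, ih, h1]
      | pred k ih =>
        intro d
        rw [zpow_sub_one, Equiv.Perm.mul_apply, ih]
        have := h1 (σ⁻¹ d)
        rw [show σ (σ⁻¹ d) = d from σ.apply_symm_apply d] at this
        exact this.symm
    exact (hz k d).symm
  · intro h
    obtain ⟨k, hk⟩ := h2 d e h
    exact ⟨(k : ℕ), by simpa using hk⟩

theorem rot_same (d e : Fin 18) : board.rot.SameCycle d e ↔ vl d = vl e :=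
  same_iff board.rot vl (by decide) (by decide +kernel) d e

theorem next_same (d e : Fin 18) : board.next.SameCycle d e ↔ fl d = fl e :=
  same_iff board.next fl (by decide) (by decide +kernel) d e

theorem card_cycles {n : ℕ} (σ : Equiv.Perm (Fin 18)) (l : Fin 18 → Fin n)
    (h : ∀ d e, σ.SameCycle d e ↔ l d = l e) (hs : ∀ v, ∃ d, l d = v) :
    numCycles σ = n := by
  have e : Quotient (Equiv.Perm.SameCycle.setoid σ) ≃ Fin n :=
    Equiv.ofBijective
      (Quotient.lift l (fun a b hab => (h a b).1 hab))
      ⟨by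
        intro a b
        induction a using Quotient.inductionOn
        induction b using Quotient.inductionOn
        intro hab
        exact Quotient.sound ((h _ _).2 hab), by
        intro v
        obtain ⟨d, hd⟩ := hs v
        exact ⟨Quotient.mk _ d, hd⟩⟩
  rw [numCycles, Nat.card_congr e, Nat.card_fin]

/-- the labels of the edges -/
def el : Fin 18 → Fin 9 := ![0, 0, 1, 1, 2, 2, 3, 3, 4, 4, 5, 5, 6, 6, 7, 7, 8, 8]

theorem rev_same (d e : Fin 18) : board.revPerm.SameCycle d e ↔ el d = el e :=
  same_iff board.revPerm el (by decide) (by decide +kernel) d e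

theorem num_vertices : numCycles board.rot = 7 := card_cycles _ vl rot_same (by decide)

theorem num_edges : numCycles board.revPerm = 9 := card_cycles _ el rev_same (by decide)

theorem num_regions : numCycles board.next = 4 := card_cycles _ fl next_same (by decide)

/-! ## Positions as numbers -/

/-- the position of a number -/
def S (m : ℕ) : Set (Fin 18) := {d | m.testBit d = true}

theorem S_insert (m : ℕ) (d : Fin 18) : insert d (S m) = S (m ||| 2 ^ (d : ℕ)) := by
  ext e
  simp only [S, Set.mem_insert_iff, Set.mem_ofPred_eq, Nat.testBit_or, Nat.testBit_two_pow,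
    Bool.or_eq_true, decide_eq_true_eq]
  constructor
  · rintro (rfl | h)
    · exact Or.inr rfl
    · exact Or.inl h
  · rintro (h | h)
    · exact Or.inr h
    · exact Or.inl (Fin.ext h.symm)

theorem S_zero : S 0 = ∅ := by
  ext d
  simp [S]

theorem and_eq (m c : ℕ) (hc : c < 2 ^ 18) :
    m &&& c = c ↔ ∀ e : Fin 18, c.testBit e = true → m.testBit e = true := by
  constructor
  · intro h e he
    rw [← h, Nat.testBit_and, Bool.and_eq_true] at he
    exact he.1
  · intro h
    apply Nat.eq_of_testBit_eq
    intro i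
    rw [Nat.testBit_and]
    by_cases hi : c.testBit i = true
    · have h18 : i < 18 := by
        by_contra hcon
        push Not at hcon
        have h1 : c < 2 ^ i := lt_of_lt_of_le hc (Nat.pow_le_pow_right (by norm_num) hcon)
        rw [Nat.testBit_lt_two_pow h1] at hi
        exact absurd hi (by decide)
      have := h ⟨i, h18⟩ hi
      rw [this, hi]
      rfl
    · rw [Bool.not_eq_true] at hi
      rw [hi, Bool.and_false]

/-- darts leaving a vertex -/
def om : Fin 7 → ℕ := ![385, 8198, 24, 16480, 132608, 6144, 98304]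

/-- darts entering a vertex -/
def im : Fin 7 → ℕ := ![578, 4105, 36, 32912, 67840, 9216, 147456]

/-- the boundaries of the three cells -/
def cm : Fin 3 → ℕ := ![10753, 170, 164160]

/-- the reversed boundaries of the three cells -/
def cr : Fin 3 → ℕ := ![5378, 85, 82560]

/-- no sink and no source -/
def okB (m : ℕ) : Bool :=
  (List.finRange 7).all (fun v => !(m &&& om v == om v) && !(m &&& im v == im v))

/-- a cycle cell -/
def cycB (m : ℕ) : Bool :=
  (List.finRange 3).any (fun v => (m &&& cm v == cm v) || (m &&& cr v == cr v))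

/-- legal moves -/
def legalB (m : ℕ) (d : Fin 18) : Bool :=
  !(m.testBit d) && !(m.testBit (rv d)) && okB (m ||| 2 ^ (d : ℕ))

theorem source_iff (m : ℕ) : board.Source (S m) ↔ ∃ v, m &&& om v = om v := by
  have hom : ∀ v (e : Fin 18), (om v).testBit e = decide (vl e = v) := by decide
  have hlt : ∀ v, om v < 2 ^ 18 := by decide
  constructor
  · rintro ⟨d, hd⟩
    refine ⟨vl d, ?_⟩
    rw [and_eq _ _ (hlt _)]
    intro e he
    rw [hom, decide_eq_true_eq] at he
    exact hd e ((rot_same d e).2 he.symm)
  · rintro ⟨v, hv⟩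
    rw [and_eq _ _ (hlt _)] at hv
    obtain ⟨d, hd⟩ : ∃ d, vl d = v := by
      clear hv
      revert v
      decide
    refine ⟨d, fun e he => ?_⟩
    apply hv
    rw [hom, decide_eq_true_eq, ← hd]
    exact ((rot_same d e).1 he).symm

theorem sink_iff (m : ℕ) : board.Sink (S m) ↔ ∃ v, m &&& im v = im v := by
  have him : ∀ v (e : Fin 18), (im v).testBit e = decide (vl (rv e) = v) := by decide
  have hlt : ∀ v, im v < 2 ^ 18 := by decide
  have hrr : ∀ e, rv (rv e) = e := by decide
  constructor
  · rintro ⟨d, hd⟩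
    refine ⟨vl d, ?_⟩
    rw [and_eq _ _ (hlt _)]
    intro e he
    rw [him, decide_eq_true_eq] at he
    have := hd (rv e) ((rot_same d (rv e)).2 he.symm)
    rw [show board.rev (rv e) = e from hrr e] at this
    exact this
  · rintro ⟨v, hv⟩
    rw [and_eq _ _ (hlt _)] at hv
    obtain ⟨d, hd⟩ : ∃ d, vl d = v := by
      clear hv
      revert v
      decide
    refine ⟨d, fun e he => ?_⟩
    apply hv
    rw [him, decide_eq_true_eq, ← hd]
    show vl (rv (rv e)) = vl d
    rw [hrr]
    exact ((rot_same d e).1 he).symm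

theorem cycle_iff (m : ℕ) : board.CycleCell (S m) ↔
    ∃ v, m &&& cm v = cm v ∨ m &&& cr v = cr v := by
  have hcm : ∀ v (e : Fin 18), (cm v).testBit e = decide (fl e = v.castSucc) := by decide
  have hcr : ∀ v (e : Fin 18), (cr v).testBit e = decide (fl (rv e) = v.castSucc) := by decide
  have hlt : ∀ v, cm v < 2 ^ 18 := by decide
  have hlt2 : ∀ v, cr v < 2 ^ 18 := by decide
  have hrr : ∀ e, rv (rv e) = e := by decide
  constructor
  · rintro ⟨d, h0, hd⟩
    rw [next_same] at h0
    obtain ⟨v, hv⟩ : ∃ v : Fin 3, v.castSucc = fl d := by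
      have : ∀ d, ¬ fl 2 = fl d → ∃ v : Fin 3, v.castSucc = fl d := by decide
      exact this d h0
    refine ⟨v, ?_⟩
    rcases hd with hd | hd
    · left
      rw [and_eq _ _ (hlt _)]
      intro e he
      rw [hcm, decide_eq_true_eq, hv] at he
      exact hd e ((next_same d e).2 he.symm)
    · right
      rw [and_eq _ _ (hlt2 _)]
      intro e he
      rw [hcr, decide_eq_true_eq, hv] at he
      have := hd (rv e) ((next_same d (rv e)).2 he.symm)
      rw [show board.rev (rv e) = e from hrr e] at this
      exact this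
  · rintro ⟨v, hv⟩
    obtain ⟨d, hd, hd2⟩ : ∃ d, fl d = v.castSucc ∧ ¬ fl 2 = fl d := by
      clear hv
      revert v
      decide
    refine ⟨d, fun h => hd2 ((next_same _ _).1 h), ?_⟩
    rcases hv with hv | hv
    · left
      intro e he
      rw [and_eq _ _ (hlt _)] at hv
      apply hv
      rw [hcm, decide_eq_true_eq, ← hd]
      exact ((next_same d e).1 he).symm
    · right
      intro e he
      rw [and_eq _ _ (hlt2 _)] at hv
      apply hv
      rw [hcr, decide_eq_true_eq, ← hd]
      show fl (rv (rv e)) = fl d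
      rw [hrr]
      exact ((next_same d e).1 he).symm

theorem cycB_iff (m : ℕ) : cycB m = true ↔ board.CycleCell (S m) := by
  rw [cycle_iff, cycB, List.any_eq_true]
  constructor
  · rintro ⟨v, _, hv⟩
    rw [Bool.or_eq_true, beq_iff_eq, beq_iff_eq] at hv
    exact ⟨v, hv⟩
  · rintro ⟨v, hv⟩
    refine ⟨v, List.mem_finRange v, ?_⟩
    rw [Bool.or_eq_true, beq_iff_eq, beq_iff_eq]
    exact hv

theorem legalB_iff (m : ℕ) (d : Fin 18) : legalB m d = true ↔ board.Legal (S m) d := by
  rw [legalB, Bool.and_eq_true, Bool.and_eq_true, okB, List.all_eq_true, Board.Legal, S_insert,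
    source_iff, sink_iff]
  simp only [S, Set.mem_ofPred_eq, Bool.not_eq_true', Bool.and_eq_true, beq_eq_false_iff_ne, ne_eq,
    List.mem_finRange, true_implies, not_exists, Bool.not_eq_true]
  constructor
  · rintro ⟨⟨h1, h2⟩, h3⟩
    exact ⟨h1, h2, fun v => (h3 v).1, fun v => (h3 v).2⟩
  · rintro ⟨h1, h2, h3, h4⟩
    exact ⟨⟨h1, h2⟩, fun v => ⟨h3 v, h4 v⟩⟩

/-! ## The strategy -/

/-- Search trees. -/
inductive T where
  | l : T
  | n : T → ℕ → T → T

/-- the entries of a tree -/
def T.toList : T → List ℕ
  | T.l => []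
  | T.n a x b => a.toList ++ x :: b.toList

/-- look up an entry -/
def T.has : T → ℕ → Bool
  | T.l, _ => false
  | T.n a x b, y => if y = x then true else if y < x then a.has y else b.has y

theorem has_mem (t : T) (y : ℕ) (h : t.has y = true) : y ∈ t.toList := by
  induction t with
  | l => exact absurd h (by simp [T.has])
  | n a x b iha ihb =>
    rw [T.toList, List.mem_append, List.mem_cons]
    rw [T.has] at h
    split_ifs at h with h1 h2
    · exact Or.inr (Or.inl h1)
    · exact Or.inl (iha h)
    · exact Or.inr (Or.inr (ihb h))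

/-- The positions that the second player aims at. -/
def tree : T :=
(T.n (T.n (T.n (T.n (T.n (T.n (T.n (T.n T.l 0 T.l) 17 T.l) 34 (T.n (T.n T.l 68 T.l) 1348 T.l))
1570 (T.n (T.n (T.n T.l 2052 T.l) 2070 T.l) 2309 (T.n (T.n T.l 2321 T.l) 2628 T.l))) 4104 (T.n
(T.n (T.n (T.n T.l 4194 T.l) 4420 T.l) 4424 (T.n (T.n T.l 4618 T.l) 8337 T.l)) 8772 (T.n (T.n
(T.n T.l 16896 T.l) 16901 T.l) 16906 (T.n T.l 17952 T.l)))) 18466 (T.n (T.n (T.n (T.n (T.n T.l
18948 T.l) 18960 T.l) 18966 (T.n (T.n T.l 20520 T.l) 21024 T.l)) 22021 (T.n (T.n (T.n T.l 22026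
T.l) 22049 T.l) 22050 (T.n T.l 22056 T.l))) 24576 (T.n (T.n (T.n (T.n T.l 24593 T.l) 24610 T.l)
24644 (T.n (T.n T.l 24712 T.l) 24725 T.l)) 24745 (T.n (T.n (T.n T.l 25090 T.l) 25152 T.l) 26880
(T.n T.l 26885 T.l))))) 26897 (T.n (T.n (T.n (T.n (T.n (T.n T.l 26914 T.l) 26948 T.l) 27016 (T.n
(T.n T.l 27146 T.l) 27154 T.l)) 27170 (T.n (T.n (T.n T.l 32838 T.l) 33024 T.l) 33029 (T.n (T.n
T.l 33058 T.l) 33792 T.l))) 33809 (T.n (T.n (T.n (T.n T.l 33858 T.l) 33860 T.l) 33878 (T.n (T.n
T.l 33898 T.l) 34056 T.l)) 34080 (T.n (T.n (T.n T.l 34089 T.l) 34176 T.l) 34821 (T.n T.l 34902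
T.l)))) 35088 (T.n (T.n (T.n (T.n (T.n T.l 35094 T.l) 36881 T.l) 36950 (T.n (T.n T.l 36970 T.l)
37000 T.l)) 37248 (T.n (T.n (T.n T.l 38149 T.l) 38161 T.l) 38400 (T.n T.l 38417 T.l))) 38434
(T.n (T.n (T.n (T.n T.l 38468 T.l) 38536 T.l) 41232 (T.n (T.n T.l 43269 T.l) 43281 T.l)) 43282
(T.n (T.n (T.n T.l 43284 T.l) 43298 T.l) 65664 (T.n T.l 65697 T.l)))))) 65928 (T.n (T.n (T.n
(T.n (T.n (T.n (T.n T.l 66065 T.l) 66082 T.l) 66690 (T.n (T.n T.l 66710 T.l) 66729 T.l)) 67713
(T.n (T.n (T.n T.l 67716 T.l) 67728 T.l) 67733 (T.n (T.n T.l 67734 T.l) 67753 T.l))) 68118 (T.n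
(T.n (T.n (T.n T.l 69642 T.l) 69738 T.l) 69762 (T.n (T.n T.l 69782 T.l) 69992 T.l)) 70817 (T.n
(T.n (T.n T.l 71178 T.l) 71185 T.l) 71202 (T.n T.l 73796 T.l)))) 73857 (T.n (T.n (T.n (T.n (T.n
T.l 73877 T.l) 73897 T.l) 75780 (T.n (T.n T.l 75924 T.l) 76322 T.l)) 83268 (T.n (T.n (T.n T.l
83336 T.l) 84548 T.l) 84560 (T.n T.l 86090 T.l))) 86312 (T.n (T.n (T.n (T.n T.l 86340 T.l) 86344
T.l) 86408 (T.n (T.n T.l 90368 T.l) 90385 T.l)) 90402 (T.n (T.n (T.n T.l 90436 T.l) 90504 T.l)
90692 (T.n T.l 90696 T.l))))) 90704 (T.n (T.n (T.n (T.n (T.n (T.n T.l 92194 T.l) 92228 T.l)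
131345 (T.n (T.n T.l 131652 T.l) 133125 T.l)) 133206 (T.n (T.n (T.n T.l 135168 T.l) 135202 T.l)
135234 (T.n T.l 135254 T.l))) 135274 (T.n (T.n (T.n (T.n T.l 135304 T.l) 135425 T.l) 135428 (T.n
(T.n T.l 135440 T.l) 135572 T.l)) 136200 (T.n (T.n (T.n T.l 136296 T.l) 136453 T.l) 136465 (T.n
T.l 136481 T.l)))) 139413 (T.n (T.n (T.n (T.n (T.n T.l 141573 T.l) 141585 T.l) 164880 (T.n (T.n
T.l 164886 T.l) 165252 T.l)) 165256 (T.n (T.n (T.n T.l 165280 T.l) 166021 T.l) 166468 (T.n T.l
168324 T.l))) 168328 (T.n (T.n (T.n (T.n T.l 168352 T.l) 168448 T.l) 168458 (T.n (T.n T.l 168465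
T.l) 168482 T.l)) 168516 (T.n (T.n (T.n T.l 168584 T.l) 168977 T.l) 169096 (T.n T.l 172612
T.l)))))))

/-- Every move from the position `m` creates no cycle cell and has an answer that creates a cycle
cell or leads to a position of the tree. -/
def check (m : ℕ) : Bool :=
  (List.finRange 18).all (fun d => !(legalB m d) ||
    (!(cycB (m ||| 2 ^ (d : ℕ))) && (List.finRange 18).any (fun e =>
      legalB (m ||| 2 ^ (d : ℕ)) e && (cycB (m ||| 2 ^ (d : ℕ) ||| 2 ^ (e : ℕ)) ||
        tree.has (m ||| 2 ^ (d : ℕ) ||| 2 ^ (e : ℕ))))))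

theorem all_check : tree.toList.all (fun m => check m && decide (m < 2 ^ 18)) = true := by
  decide +kernel

theorem or_lt (m d : ℕ) (h : m.testBit d = false) : m < m ||| 2 ^ d := by
  refine lt_of_le_of_ne Nat.left_le_or ?_
  intro heq
  have h1 : (m ||| 2 ^ d).testBit d = true := by
    rw [Nat.testBit_or, Nat.testBit_two_pow_self, Bool.or_true]
  rw [← heq, h] at h1
  exact absurd h1 (by decide)

theorem loses_of_tree : ∀ (k m : ℕ), 2 ^ 18 - m ≤ k → m ∈ tree.toList → board.Loses (S m) := by
  intro k
  induction k with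
  | zero =>
    intro m hk hm
    have h1 := List.all_eq_true.1 all_check m hm
    rw [Bool.and_eq_true, decide_eq_true_eq] at h1
    have := h1.2
    omega
  | succ k ih =>
    intro m hk hm d hd
    have h1 := List.all_eq_true.1 all_check m hm
    rw [Bool.and_eq_true, decide_eq_true_eq] at h1
    have h2 := List.all_eq_true.1 h1.1 d (List.mem_finRange d)
    rw [← legalB_iff] at hd
    have hd' := hd
    rw [legalB, Bool.and_eq_true, Bool.and_eq_true, Bool.not_eq_true'] at hd'
    rw [hd, Bool.not_true, Bool.false_or, Bool.and_eq_true, Bool.not_eq_true', List.any_eq_true]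
      at h2
    obtain ⟨h3, e, _, h4⟩ := h2
    rw [S_insert]
    refine ⟨fun hcyc => ?_, ?_⟩
    · rw [← cycB_iff, h3] at hcyc
      exact absurd hcyc (by decide)
    · rw [Bool.and_eq_true, Bool.or_eq_true] at h4
      obtain ⟨h5, h6⟩ := h4
      have h5' := h5
      rw [legalB, Bool.and_eq_true, Bool.and_eq_true, Bool.not_eq_true'] at h5'
      rcases h6 with h6 | h6
      · refine Board.Wins.cycle _ e ((legalB_iff _ _).1 h5) ?_
        rw [S_insert]
        exact (cycB_iff _).1 h6
      · have h9 : board.Loses (S (m ||| 2 ^ (d : ℕ) ||| 2 ^ (e : ℕ))) := by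
          have h7 : m < m ||| 2 ^ (d : ℕ) := or_lt m d hd'.1.1
          have h8 : m ||| 2 ^ (d : ℕ) < m ||| 2 ^ (d : ℕ) ||| 2 ^ (e : ℕ) := or_lt _ e h5'.1.1
          refine ih _ ?_ (has_mem _ _ h6)
          omega
        rw [← S_insert] at h9
        exact Board.Wins.force _ e ((legalB_iff _ _).1 h5) (fun x hx => (h9 x hx).1)
          (fun x hx => (h9 x hx).2)

/-- The board `board` is a connected plane drawing of a simple triangle-free graph with 7 vertices,
9 edges and 4 regions (three cells and the unbounded region), every vertex has degree at least 2,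
the number of edges is odd, and nevertheless the second player has a winning strategy in the Game of
Cycles on this board (and the first player has none). -/
theorem result : board.Connected ∧ board.Planar ∧ board.Simple ∧ board.TriangleFree ∧
    (∀ d, board.rot d ≠ d) ∧ numCycles board.rot = 7 ∧ numCycles board.revPerm = 9 ∧
    numCycles board.next = 4 ∧ Odd (numCycles board.revPerm) ∧
    board.SecondWins ∧ ¬ board.FirstWins := by
  have hlose : board.SecondWins := by
    have := loses_of_tree (2 ^ 18) 0 (by omega) (has_mem _ _ (by decide +kernel))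
    rwa [S_zero] at this
  refine ⟨?_, ?_, ⟨?_, ?_⟩, ?_, by decide, num_vertices, num_edges, num_regions, ?_, hlose,
    not_wins board _ ∅ le_rfl hlose⟩
  · rintro A ⟨a, ha⟩ hA
    have hit : ∀ (n : ℕ) (F : Finset (Fin 18)), (∀ x ∈ F, x ∈ A) →
        ∀ x ∈ (fun F : Finset (Fin 18) => F ∪ F.image rv ∪ F.image rt)^[n] F, x ∈ A := by
      intro n
      induction n with
      | zero => intro F hF; exact hF
      | succ n ih =>
        intro F hF
        rw [Function.iterate_succ_apply]
        apply ih
        intro x hx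
        rw [Finset.mem_union, Finset.mem_union, Finset.mem_image, Finset.mem_image] at hx
        rcases hx with (hx | ⟨y, hy, rfl⟩) | ⟨y, hy, rfl⟩
        · exact hF x hx
        · exact (hA y (hF y hy)).1
        · exact (hA y (hF y hy)).2
    have hall : ∀ a : Fin 18,
        (fun F : Finset (Fin 18) => F ∪ F.image rv ∪ F.image rt)^[9] {a} = Finset.univ := by
      decide +kernel
    rw [Set.eq_univ_iff_forall]
    intro x
    apply hit 9 {a} (by simpa using ha)
    rw [hall a]
    exact Finset.mem_univ x
  · rw [Board.Planar, num_vertices, num_regions, num_edges]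
  · intro d
    rw [rot_same]
    revert d
    decide
  · intro d e
    rw [rot_same, rot_same]
    revert d e
    decide
  · intro a b c
    rw [rot_same, rot_same, rot_same]
    revert a b c
    decide +kernel
  · rw [num_edges]
    decide

end Pool.Agent.Results.MP_b0ae03_co.CubeMinusVertex
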